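import Mathlib

set_option autoImplicit false

/-!
# MP_eef58c_lc, module G10 (S-M): Yao's principle (Mathlib only)

Suppose not: `ENNReal.ofReal δ < μ.toOuterMeasure (s i)` for all `i`, `s i = {A | P i A}`. Sum over `i`:
`∑ i, μ.toOuterMeasure (s i) = ∑ i, ∑' A, if P i A then μ A else 0 = ∑' A, μ A * #{i : P i A} ≤ ∑' A, μ A * ofReal (δ * card I) =
ofReal (δ * card I)` (`PMF.toOuterMeasure_apply`, `ENNReal.tsum_mul_right`, `PMF.tsum_coe`, `tsum_sum`/`ENNReal.tsum_comm`), but the
left side is larger than `card I * ofReal δ` (`Finset.sum_lt_sum_of_nonempty`).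
-/

namespace Pool.Agent.Work.MP_eef58c_lc

open Finset

open Classical in
theorem yao {Ω I : Type} [Fintype I] [Nonempty I] (μ : PMF Ω) (P : I → Ω → Prop) {δ : ℝ} (hδ : 0 ≤ δ)
    (h : ∀ A, ((univ.filter fun i => P i A).card : ℝ) ≤ δ * Fintype.card I) :
    ∃ i, μ.toOuterMeasure {A | P i A} ≤ ENNReal.ofReal δ := by
  by_contra hcon
  push Not at hcon
  have h1 : ∑ i : I, ENNReal.ofReal δ < ∑ i : I, μ.toOuterMeasure {A | P i A} :=
    ENNReal.sum_lt_sum_of_nonempty univ_nonempty fun i _ => hcon i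
  have h2 : ∑ i : I, μ.toOuterMeasure {A | P i A} =
      ∑' A, μ A * ((univ.filter fun i => P i A).card : ℕ) := by
    have : ∀ i : I, μ.toOuterMeasure {A | P i A} = ∑' A, (if P i A then μ A else 0) := by
      intro i
      rw [PMF.toOuterMeasure_apply]
      refine tsum_congr fun A => ?_
      simp [Set.indicator_apply]
    simp_rw [this]
    rw [← Summable.tsum_finsetSum fun i _ => ENNReal.summable]
    refine tsum_congr fun A => ?_
    rw [← Finset.sum_filter, Finset.sum_const, nsmul_eq_mul, mul_comm]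
  have h3 : ∑' A, μ A * ((univ.filter fun i => P i A).card : ℕ) ≤
      ∑' A, μ A * ENNReal.ofReal (δ * Fintype.card I) := by
    refine ENNReal.tsum_le_tsum fun A => ?_
    gcongr
    rw [← ENNReal.ofReal_natCast]
    exact ENNReal.ofReal_le_ofReal (h A)
  rw [ENNReal.tsum_mul_right, μ.tsum_coe, one_mul] at h3
  rw [h2] at h1
  have h4 := lt_of_lt_of_le h1 h3
  rw [Finset.sum_const, Finset.card_univ, nsmul_eq_mul, ENNReal.ofReal_mul hδ,
    ENNReal.ofReal_natCast, mul_comm] at h4
  exact lt_irrefl _ h4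

end Pool.Agent.Work.MP_eef58c_lc
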