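import Pool.Agent.Work.MP_eef58c_lc.Model

set_option autoImplicit false

/-!
# MP_eef58c_lc: quadratic space lower bound for submodular matching in one pass, definitions

* `K p m`: slots `(i, b, c)` (phase, left vertex, right vertex), `i < p`, `b, c ≤ m`.
* `sp a t`: the slot `t = (i, b, c)` is special, `c = b + a i`.
* `w a b k`, `g a`: the function on sets of slots, `g a T = ∑ b k, (1 - ∏ t ∈ T, w a b k t)`.
* `E ι t β`: the edge of the slot `t` with twin bit `β`; `pre p m j`: the slots of the phases `< j` in a list.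
* `strm ι β j`, `f ι β a`: the hard instance.
-/

namespace Pool.Agent.Work.MP_eef58c_lc

open Finset

/-- slots -/
abbrev K (p m : ℕ) : Type := Fin p × Fin (m + 1) × Fin (m + 1)

/-- special slots -/
def sp {p m : ℕ} (a : Fin p → Fin (m + 1)) (t : K p m) : Prop := t.2.2 = t.2.1 + a t.1

instance {p m : ℕ} (a : Fin p → Fin (m + 1)) (t : K p m) : Decidable (sp a t) :=
  inferInstanceAs (Decidable (t.2.2 = t.2.1 + a t.1))

/-- the factor of a phase -/
noncomputable def pr (p i : ℕ) : ℝ := 1 - 1 / ((p : ℝ) - i)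

/-- weights -/
noncomputable def w {p m : ℕ} (a : Fin p → Fin (m + 1)) (b : Fin (m + 1)) (k : Fin p) (t : K p m) : ℝ :=
  if t.2.1 = b then
    (if sp a t then (if t.1 = k then 0 else 1) else (if t.1 ≤ k then pr p t.1 else 1))
  else 1

/-- the set function on slots -/
noncomputable def g {p m : ℕ} (a : Fin p → Fin (m + 1)) (T : Finset (K p m)) : ℝ :=
  ∑ b, ∑ k, (1 - ∏ t ∈ T, w a b k t)

/-- the vertices of the hard instance -/
abbrev Vx (p m : ℕ) : Type := (Fin p × Fin (m + 1)) ⊕ (Fin p × Fin (m + 1) × Bool)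

/-- the edge of a slot -/
def E {p m n : ℕ} (ι : Vx p m ↪ Fin n) (t : K p m) (β : Bool) : Sym2 (Fin n) :=
  s(ι (Sum.inl (t.1, t.2.1)), ι (Sum.inr (t.1, t.2.2, β)))

/-- the slots of the phases `< j` -/
def pre (p m j : ℕ) : List (K p m) :=
  ((List.finRange p).take j).flatMap fun i =>
    (List.finRange (m + 1)).flatMap fun b => (List.finRange (m + 1)).map fun c => (i, b, c)

/-- the stream up to phase `j` -/
def strm {p m n : ℕ} (ι : Vx p m ↪ Fin n) (β : K p m → Bool) (j : ℕ) : List (Sym2 (Fin n)) :=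
  (pre p m j).map fun t => E ι t (β t)

/-- the slots of a set of edges -/
def slots {p m n : ℕ} (ι : Vx p m ↪ Fin n) (β : K p m → Bool) (S : Finset (Sym2 (Fin n))) :
    Finset (K p m) := univ.filter fun t => E ι t (β t) ∈ S

/-- the function of the hard instance -/
noncomputable def f {p m n : ℕ} (ι : Vx p m ↪ Fin n) (β : K p m → Bool) (a : Fin p → Fin (m + 1))
    (S : Finset (Sym2 (Fin n))) : ℝ := g a (slots ι β S)

end Pool.Agent.Work.MP_eef58c_lc
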