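import Pool.Agent.Work.MP_eef58c_lc.G9
import Pool.Agent.Work.MP_eef58c_lc.G10

set_option autoImplicit false

/-!
# MP_eef58c_lc, module Fin (M): the theorem

`α' = max α 1 < 2`; an algorithm which succeeds for `α` succeeds for `α'` if `0 ≤ f`. Choose `p ≥ 1` with
`γ = p / α' - (p+1)/2 > 0`, `r` with `1 / 2 ^ r ≤ δ / 2`, `c = γ δ / (144 p ^ 3)`; for `n ≥ 6 p` take `m + 1 = n / (3 p)` (natural
division), so `(m + 1) ≥ n / (6 p)` and `card (Vx p m) = 3 p (m+1) ≤ n`; `n₀` large.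
`det` and `yao` with `I = (K p m → Bool) × (Fin p → Fin (m+1))`.
-/

namespace Pool.Agent.Work.MP_eef58c_lc

open Finset

private theorem card_Vx (p m : ℕ) : Fintype.card (Vx p m) = 3 * p * (m + 1) := by
  simp only [Vx, Fintype.card_sum, Fintype.card_prod, Fintype.card_fin, Fintype.card_bool]
  ring

private theorem succ_mono {n s : ℕ} (A : Alg n s) {α α' : ℝ} (h : α ≤ α') {l : List (Sym2 (Fin n))}
    {F : Finset (Sym2 (Fin n)) → ℝ} (h0 : F ∅ = 0) (hm : Monotone F) (hs : A.Succeeds α l F) :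
    A.Succeeds α' l F := by
  obtain ⟨M, h1, h2, h3⟩ := hs
  refine ⟨M, h1, h2, fun M' h4 h5 => (h3 M' h4 h5).trans ?_⟩
  have : 0 ≤ F M := by
    rw [← h0]
    exact hm (Finset.empty_subset M)
  exact mul_le_mul_of_nonneg_right h this

private theorem num {p m n s r : ℕ} {γ δ : ℝ} (hp : 1 ≤ p) (hγ : 0 < γ) (hδ : 0 < δ)
    (hn : (n : ℝ) ≤ 6 * p * (m + 1)) (hs : (s : ℝ) ≤ γ * δ / (144 * p ^ 3) * (n : ℝ) ^ 2)
    (hr : 144 * (p : ℝ) ^ 3 * r ≤ γ * δ * (n : ℝ) ^ 2) :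
    (p : ℝ) * (s + r) / (((m : ℝ) + 1) ^ 2 * γ) ≤ δ / 2 := by
  have hp0 : (0 : ℝ) < p := by exact_mod_cast hp
  have hm0 : (0 : ℝ) < (m : ℝ) + 1 := by positivity
  rw [div_le_iff₀ (by positivity)]
  have h1 : (n : ℝ) ^ 2 ≤ (6 * p * (m + 1)) ^ 2 := pow_le_pow_left₀ (Nat.cast_nonneg n) hn 2
  have h2 : 144 * (p : ℝ) ^ 3 * s ≤ γ * δ * (n : ℝ) ^ 2 := by
    have h3 := mul_le_mul_of_nonneg_left hs (show (0 : ℝ) ≤ 144 * p ^ 3 by positivity)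
    have h4 : 144 * (p : ℝ) ^ 3 * (γ * δ / (144 * p ^ 3) * (n : ℝ) ^ 2) = γ * δ * (n : ℝ) ^ 2 := by
      field_simp
    linarith
  have h5 : 144 * (p : ℝ) ^ 2 * (p * (s + r)) ≤ 144 * (p : ℝ) ^ 2 * (δ / 2 * (((m : ℝ) + 1) ^ 2 * γ)) := by
    have h6 : γ * δ * (n : ℝ) ^ 2 ≤ γ * δ * (6 * p * (m + 1)) ^ 2 :=
      mul_le_mul_of_nonneg_left h1 (by positivity)
    nlinarith
  exact le_of_mul_le_mul_left h5 (by positivity)

theorem quadratic (α δ : ℝ) (hα : α < 2) (hδ : 0 < δ) : ∃ c : ℝ, 0 < c ∧ ∃ n₀ : ℕ, ∀ n ≥ n₀, ∀ s : ℕ,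
    (s : ℝ) ≤ c * (n : ℝ) ^ 2 → ∀ μ : PMF (Alg n s),
      ∃ (l : List (Sym2 (Fin n))) (f : Finset (Sym2 (Fin n)) → ℝ),
        l.Nodup ∧ (∃ X : Finset (Fin n), ∀ e ∈ l, ∃ u ∈ X, ∃ v, v ∉ X ∧ e = s(u, v)) ∧
        f ∅ = 0 ∧ Monotone f ∧ Submod f ∧
        μ.toOuterMeasure {A | A.Succeeds α l f} ≤ ENNReal.ofReal δ := by
  classical
  obtain ⟨α', hα1, hα2, hle⟩ : ∃ α' : ℝ, 1 ≤ α' ∧ α' < 2 ∧ α ≤ α' :=
    ⟨max α 1, le_max_right _ _, max_lt hα one_lt_two, le_max_left _ _⟩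
  have hα0 : 0 < α' := by linarith
  have hκ : 0 < 1 / α' - 1 / 2 := by
    rw [sub_pos]
    exact one_div_lt_one_div_of_lt hα0 hα2
  obtain ⟨p, hp⟩ := exists_nat_gt (1 / (1 / α' - 1 / 2))
  have hp0 : (0 : ℝ) < p := lt_trans (by positivity) hp
  have hp1 : 1 ≤ p := by exact_mod_cast hp0
  rw [div_lt_iff₀ hκ] at hp
  obtain ⟨γ, hγ0, hγ⟩ : ∃ γ : ℝ, 0 < γ ∧ γ + ((p : ℝ) + 1) / 2 ≤ p / α' := by
    refine ⟨p / α' - ((p : ℝ) + 1) / 2, ?_, by linarith⟩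
    have : (p : ℝ) * (1 / α' - 1 / 2) = p / α' - p / 2 := by ring
    linarith
  obtain ⟨r, hr⟩ := exists_pow_lt_of_lt_one (half_pos hδ) (show (1 / 2 : ℝ) < 1 by norm_num)
  refine ⟨γ * δ / (144 * p ^ 3), by positivity, max (6 * p) (⌈144 * (p : ℝ) ^ 3 * r / (γ * δ)⌉₊ + 1), ?_⟩
  intro n hn s hs μ
  have hn1 : 6 * p ≤ n := (le_max_left _ _).trans hn
  have hn2 : ⌈144 * (p : ℝ) ^ 3 * r / (γ * δ)⌉₊ + 1 ≤ n := (le_max_right _ _).trans hn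
  obtain ⟨m, hm⟩ : ∃ m, n / (3 * p) = m + 1 := by
    have : 1 ≤ n / (3 * p) := by
      rw [Nat.le_div_iff_mul_le (by omega)]
      omega
    exact ⟨n / (3 * p) - 1, by omega⟩
  have hcard : 3 * p * (m + 1) ≤ n := by
    rw [← hm]
    exact Nat.mul_div_le n (3 * p)
  have hup : (n : ℝ) ≤ 6 * p * (m + 1) := by
    have h1 : n < 3 * p * (m + 1 + 1) := by
      rw [← hm]
      exact Nat.lt_mul_div_succ n (by omega)
    have h2 : 3 * p * (m + 1 + 1) ≤ 6 * p * (m + 1) := by nlinarith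
    have h3 : n ≤ 6 * p * (m + 1) := by omega
    exact_mod_cast h3
  have hrn : 144 * (p : ℝ) ^ 3 * r ≤ γ * δ * (n : ℝ) ^ 2 := by
    have h1 : 144 * (p : ℝ) ^ 3 * r / (γ * δ) ≤ n :=
      (Nat.le_ceil _).trans (by exact_mod_cast (Nat.le_succ _).trans hn2)
    rw [div_le_iff₀ (by positivity)] at h1
    have h2 : (1 : ℝ) ≤ n := by
      have : 1 ≤ n := by omega
      exact_mod_cast this
    have h3 : (n : ℝ) ≤ (n : ℝ) ^ 2 := by nlinarith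
    calc 144 * (p : ℝ) ^ 3 * r ≤ n * (γ * δ) := h1
      _ ≤ (n : ℝ) ^ 2 * (γ * δ) := mul_le_mul_of_nonneg_right h3 (by positivity)
      _ = γ * δ * (n : ℝ) ^ 2 := by ring
  have hnum := num (s := s) (r := r) hp1 hγ0 hδ hup hs hrn
  obtain ⟨ι⟩ : Nonempty (Vx p m ↪ Fin n) := by
    apply Function.Embedding.nonempty_of_card_le
    rw [card_Vx, Fintype.card_fin]
    exact hcard
  have hδ0 := hδ.le
  obtain ⟨x, hx⟩ := yao (I := (K p m → Bool) × (Fin p → Fin (m + 1))) μ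
    (fun x A => A.Succeeds α' (strm ι x.1 p) (f ι x.1 x.2)) hδ0 (by
      intro A
      refine (det ι A hα0 hγ0 hγ r).trans ?_
      refine mul_le_mul_of_nonneg_right ?_ (Nat.cast_nonneg _)
      have : (1 : ℝ) / 2 ^ r ≤ δ / 2 := by
        rw [one_div, ← inv_pow, ← one_div]
        exact hr.le
      linarith)
  refine ⟨strm ι x.1 p, f ι x.1 x.2, nodup_strm ι x.1 p, bip_strm ι x.1, f_empty ι x.1 x.2,
    f_mono ι x.1 x.2, f_submod ι x.1 x.2, le_trans (MeasureTheory.OuterMeasure.mono _ ?_) hx⟩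
  intro A hA
  exact succ_mono A hle (f_empty ι x.1 x.2) (f_mono ι x.1 x.2) hA

end Pool.Agent.Work.MP_eef58c_lc
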