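import Pool.Agent.Work.MP_eef58c_lc.Defs

set_option autoImplicit false

/-!
# MP_eef58c_lc, module G1 (S): the function on slots is monotone and submodular

`w` is between 0 and 1 (`pr p i` for `i < p`: `1/(p-i)` is in `(0,1]`). For one pair `(b, k)` put `h T = ∏ t ∈ T, w a b k t`.
Antitone: `Finset.prod_le_prod_of_subset_of_le_one'` or split `T' = T ∪ (T' \ T)`.
`h T + h T' ≤ h (T ∪ T') + h (T ∩ T')`: with `A = T ∩ T'`, `X = T \ T'`, `Y = T' \ T`: `h T = h A * h X`, `h T' = h A * h Y`,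
`h (T ∪ T') = h A * h X * h Y`, and `h A * ((1 - h X) * (1 - h Y)) ≥ 0`. Sum over `b`, `k`.
-/

namespace Pool.Agent.Work.MP_eef58c_lc

open Finset

private theorem pr_nonneg {p : ℕ} (i : Fin p) : 0 ≤ pr p i := by
  unfold pr
  have h : (i : ℝ) + 1 ≤ (p : ℝ) := by exact_mod_cast i.2
  have h1 : (1 : ℝ) ≤ (p : ℝ) - i := by linarith
  have h2 : 1 / ((p : ℝ) - i) ≤ 1 := by
    rw [div_le_one (by linarith)]
    exact h1
  linarith

private theorem pr_le_one {p : ℕ} (i : Fin p) : pr p i ≤ 1 := by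
  unfold pr
  have h : (i : ℝ) + 1 ≤ (p : ℝ) := by exact_mod_cast i.2
  have h2 : 0 ≤ 1 / ((p : ℝ) - i) := div_nonneg zero_le_one (by linarith)
  linarith

theorem w_nonneg {p m : ℕ} (a : Fin p → Fin (m + 1)) (b : Fin (m + 1)) (k : Fin p) (t : K p m) :
    0 ≤ w a b k t := by
  unfold w
  have := pr_nonneg t.1
  split_ifs <;> linarith

theorem w_le_one {p m : ℕ} (a : Fin p → Fin (m + 1)) (b : Fin (m + 1)) (k : Fin p) (t : K p m) :
    w a b k t ≤ 1 := by
  unfold w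
  have := pr_le_one t.1
  split_ifs <;> linarith

theorem g_empty {p m : ℕ} (a : Fin p → Fin (m + 1)) : g a ∅ = 0 := by
  simp [g]

private theorem hnn {p m : ℕ} (a : Fin p → Fin (m + 1)) (b : Fin (m + 1)) (k : Fin p)
    (T : Finset (K p m)) : 0 ≤ ∏ t ∈ T, w a b k t :=
  prod_nonneg fun t _ => w_nonneg a b k t

private theorem hle {p m : ℕ} (a : Fin p → Fin (m + 1)) (b : Fin (m + 1)) (k : Fin p)
    (T : Finset (K p m)) : ∏ t ∈ T, w a b k t ≤ 1 :=
  prod_le_one (fun t _ => w_nonneg a b k t) fun t _ => w_le_one a b k t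

theorem g_mono {p m : ℕ} (a : Fin p → Fin (m + 1)) : Monotone (g a) := by
  intro T T' hT
  unfold g
  refine sum_le_sum fun b _ => sum_le_sum fun k _ => ?_
  have h1 : (∏ t ∈ T' \ T, w a b k t) * ∏ t ∈ T, w a b k t = ∏ t ∈ T', w a b k t :=
    prod_sdiff hT
  have h2 := hnn a b k T
  have h3 := hle a b k (T' \ T)
  nlinarith

theorem g_submod {p m : ℕ} (a : Fin p → Fin (m + 1)) (S T : Finset (K p m)) :
    g a (S ∪ T) + g a (S ∩ T) ≤ g a S + g a T := by
  unfold g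
  rw [← sum_add_distrib, ← sum_add_distrib]
  refine sum_le_sum fun b _ => ?_
  rw [← sum_add_distrib, ← sum_add_distrib]
  refine sum_le_sum fun k _ => ?_
  have h1 : (∏ t ∈ S ∩ T, w a b k t) * ∏ t ∈ S \ T, w a b k t = ∏ t ∈ S, w a b k t :=
    prod_inter_mul_prod_sdiff S T _
  have h2 : (∏ t ∈ T ∩ S, w a b k t) * ∏ t ∈ T \ S, w a b k t = ∏ t ∈ T, w a b k t :=
    prod_inter_mul_prod_sdiff T S _
  rw [inter_comm T S] at h2
  have h3 : ∏ t ∈ S ∪ T, w a b k t = (∏ t ∈ S, w a b k t) * ∏ t ∈ T \ S, w a b k t := by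
    rw [← union_sdiff_self_eq_union, prod_union disjoint_sdiff]
  have hA := hnn a b k (S ∩ T)
  have hX := hle a b k (S \ T)
  have hY := hle a b k (T \ S)
  have hm : 0 ≤ (∏ t ∈ S ∩ T, w a b k t) *
      ((1 - ∏ t ∈ S \ T, w a b k t) * (1 - ∏ t ∈ T \ S, w a b k t)) :=
    mul_nonneg hA (mul_nonneg (by linarith) (by linarith))
  rw [h3, ← h1, ← h2]
  nlinarith

end Pool.Agent.Work.MP_eef58c_lc
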