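import Pool.Agent.Work.MP_eef58c_lc.Defs

set_option autoImplicit false

/-!
# MP_eef58c_lc, module G2 (M): the special slots of phase `i` are invisible before phase `i + 1`

For fixed `b` compare `∑ k, ∏ t ∈ T, w a b k t` with the same sum for `a'`. Only the slots with `t.2.1 = b` matter; write
`T_b = T.filter (t.2.1 = b)`, `T1 = T_b.filter (t.1 < i)`, `T2 = T_b.filter (t.1 = i)`.
For `t ∈ T1`: `sp a t ↔ sp a' t`, so `w a b k t = w a' b k t` for all `k`.
`k < i` and `t ∈ T2`: `w = 1` for both (special: `t.1 = k` is false; not special: `t.1 ≤ k` is false).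
`i ≤ k` (if `i < p`): for `t ∈ T1` the weight does not depend on `k` (special: `t.1 < i ≤ k` gives 1; otherwise `pr p t.1`), so the
product over `T1` is a number `R` which is independent of `k ≥ i` and the same for `a` and `a'`.
The product over `T2`, `c = T2.card`, `x = pr p i`: if no `t ∈ T2` is special for `a`: `x ^ c` for each of the `p - i` values of `k`,
sum `(p - i) * x ^ c`. If one is special (it is unique: `t = (i, b, b + a i)`): `0` for `k = i` and `x ^ (c - 1)` for the `p - i - 1`
values `k > i`; sum `(p - i - 1) * x ^ (c - 1)`. These are equal since `(p - i) * x = p - i - 1`. So the sum over `k ≥ i` is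
`R * (p - i) * x ^ c` for `a` and for `a'`.
If `p ≤ i` then `T1` contains all slots of `T_b` and everything is clear.
-/

namespace Pool.Agent.Work.MP_eef58c_lc

open Finset

private lemma w_congr {p m : ℕ} {a a' : Fin p → Fin (m + 1)} {b : Fin (m + 1)} {k : Fin p}
    {t : K p m} (h : a t.1 = a' t.1) : w a b k t = w a' b k t := by
  have : sp a t ↔ sp a' t := by unfold sp; rw [h]
  unfold w
  simp only [this]

private lemma key2 {p m : ℕ} (a : Fin p → Fin (m + 1)) (b : Fin (m + 1)) (I : Fin p)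
    (T : Finset (K p m)) :
    ∑ k ∈ univ.filter (fun k : Fin p => ¬ k < I),
      ∏ t ∈ T.filter (fun t => t.2.1 = b ∧ t.1 = I), w a b k t =
      ((p : ℝ) - I) * (pr p I) ^ (T.filter (fun t => t.2.1 = b ∧ t.1 = I)).card := by
  have hIp : ((I : ℕ) : ℝ) < p := by exact_mod_cast I.2
  have hne : (p : ℝ) - I ≠ 0 := by linarith
  have hcard : (univ.filter (fun k : Fin p => ¬ k < I)).card = p - I := by
    have : univ.filter (fun k : Fin p => ¬ k < I) = Ici I := by
      ext k; simp
    rw [this, Fin.card_Ici]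
  have hcardR : ((univ.filter (fun k : Fin p => ¬ k < I)).card : ℝ) = (p : ℝ) - I := by
    rw [hcard, Nat.cast_sub I.2.le]
  have hx : ((p : ℝ) - I) * pr p I = (p : ℝ) - I - 1 := by
    unfold pr
    field_simp
  have hns : ∀ k ∈ univ.filter (fun k : Fin p => ¬ k < I),
      ∀ t ∈ T.filter (fun t => t.2.1 = b ∧ t.1 = I), ¬ sp a t → w a b k t = pr p I := by
    intro k hk t ht hs
    obtain ⟨h1, h2, h3⟩ := mem_filter.mp ht
    have hk' : I ≤ k := not_lt.mp (mem_filter.mp hk).2
    unfold w
    rw [if_pos h2, if_neg hs, h3, if_pos hk']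
  by_cases h0 : (I, b, b + a I) ∈ T.filter (fun t => t.2.1 = b ∧ t.1 = I)
  · have hprod : ∀ k ∈ univ.filter (fun k : Fin p => ¬ k < I),
        ∏ t ∈ T.filter (fun t => t.2.1 = b ∧ t.1 = I), w a b k t =
        (1 - if I = k then (1 : ℝ) else 0) *
          (pr p I) ^ ((T.filter (fun t => t.2.1 = b ∧ t.1 = I)).card - 1) := by
      intro k hk
      rw [← mul_prod_erase _ _ h0]
      congr 1
      · unfold w
        rw [if_pos rfl, if_pos (show sp a (I, b, b + a I) from rfl)]
        by_cases hIk : I = k <;> simp [hIk]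
      · rw [← card_erase_of_mem h0]
        rw [← prod_const]
        refine prod_congr rfl fun t ht => ?_
        have ht' := mem_of_mem_erase ht
        refine hns k hk t ht' fun hs => ne_of_mem_erase ht ?_
        obtain ⟨h1, h2, h3⟩ := mem_filter.mp ht'
        have h4 : t.2.2 = t.2.1 + a t.1 := hs
        rw [h2, h3] at h4
        exact Prod.ext h3 (Prod.ext h2 h4)
    rw [sum_congr rfl hprod, ← sum_mul, sum_sub_distrib, sum_ite_eq, if_pos (by simp), sum_const,
      nsmul_eq_mul, mul_one, hcardR, ← hx]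
    have hc : (T.filter (fun t => t.2.1 = b ∧ t.1 = I)).card ≠ 0 := card_ne_zero_of_mem h0
    obtain ⟨c, hc'⟩ := Nat.exists_eq_succ_of_ne_zero hc
    rw [hc', Nat.succ_sub_one, pow_succ]
    ring
  · have hprod : ∀ k ∈ univ.filter (fun k : Fin p => ¬ k < I),
        ∏ t ∈ T.filter (fun t => t.2.1 = b ∧ t.1 = I), w a b k t =
          (pr p I) ^ (T.filter (fun t => t.2.1 = b ∧ t.1 = I)).card := by
      intro k hk
      rw [← prod_const]
      refine prod_congr rfl fun t ht => hns k hk t ht fun hs => h0 ?_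
      obtain ⟨h1, h2, h3⟩ := mem_filter.mp ht
      have h4 : t.2.2 = t.2.1 + a t.1 := hs
      rw [h2, h3] at h4
      have : t = (I, b, b + a I) := Prod.ext h3 (Prod.ext h2 h4)
      rw [← this]
      exact ht
    rw [sum_congr rfl hprod, sum_const, nsmul_eq_mul, hcardR]

private lemma key1 {p m : ℕ} (a : Fin p → Fin (m + 1)) (b : Fin (m + 1)) (I : Fin p)
    (T : Finset (K p m)) (hT : ∀ t ∈ T, t.1 ≤ I) :
    ∑ k, ∏ t ∈ T, w a b k t =
      ∑ k ∈ univ.filter (fun k : Fin p => k < I), ∏ t ∈ T.filter (fun t => t.1 < I), w a b k t +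
      (∏ t ∈ T.filter (fun t => t.1 < I), w a b I t) * (((p : ℝ) - I) *
        (pr p I) ^ (T.filter (fun t => t.2.1 = b ∧ t.1 = I)).card) := by
  have hsplit : ∀ k, ∏ t ∈ T, w a b k t = (∏ t ∈ T.filter (fun t => t.1 < I), w a b k t) *
      ∏ t ∈ T.filter (fun t => t.2.1 = b ∧ t.1 = I), w a b k t := by
    intro k
    rw [← prod_filter_mul_prod_filter_not T (fun t => t.1 < I)]
    congr 1
    have he : T.filter (fun t => t.2.1 = b ∧ t.1 = I) =
        (T.filter (fun t => ¬ t.1 < I)).filter (fun t => t.2.1 = b) := by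
      ext t
      simp only [mem_filter]
      constructor
      · rintro ⟨h1, h2, h3⟩
        exact ⟨⟨h1, by rw [h3]; exact lt_irrefl _⟩, h2⟩
      · rintro ⟨⟨h1, h2⟩, h3⟩
        exact ⟨h1, h3, le_antisymm (hT t h1) (not_lt.mp h2)⟩
    rw [he]
    symm
    apply prod_filter_of_ne
    intro t _ h
    by_contra hb
    apply h
    unfold w
    rw [if_neg hb]
  rw [← sum_filter_add_sum_filter_not univ (fun k : Fin p => k < I)]
  congr 1
  · refine sum_congr rfl fun k hk => ?_
    have hk' : k < I := (mem_filter.mp hk).2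
    rw [hsplit k]
    rw [prod_eq_one (s := T.filter (fun t => t.2.1 = b ∧ t.1 = I)), mul_one]
    intro t ht
    obtain ⟨h1, h2, h3⟩ := mem_filter.mp ht
    unfold w
    rw [if_pos h2, h3]
    by_cases hs : sp a t
    · rw [if_pos hs, if_neg hk'.ne']
    · rw [if_neg hs, if_neg (not_le.mpr hk')]
  · rw [← key2 a b I T, mul_sum]
    refine sum_congr rfl fun k hk => ?_
    have hk' : I ≤ k := not_lt.mp (mem_filter.mp hk).2
    rw [hsplit k]
    congr 1
    refine prod_congr rfl fun t ht => ?_
    have ht' : t.1 < I := (mem_filter.mp ht).2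
    unfold w
    by_cases hb : t.2.1 = b
    · rw [if_pos hb, if_pos hb]
      by_cases hs : sp a t
      · rw [if_pos hs, if_pos hs, if_neg (ht'.trans_le hk').ne, if_neg ht'.ne]
      · rw [if_neg hs, if_neg hs, if_pos (ht'.trans_le hk').le, if_pos ht'.le]
    · rw [if_neg hb, if_neg hb]

theorem g_local {p m : ℕ} {a a' : Fin p → Fin (m + 1)} {i : ℕ} {T : Finset (K p m)}
    (hT : ∀ t ∈ T, (t.1 : ℕ) ≤ i) (ha : ∀ j : Fin p, (j : ℕ) < i → a j = a' j) : g a T = g a' T := by
  unfold g
  refine sum_congr rfl fun b _ => ?_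
  rw [sum_sub_distrib, sum_sub_distrib]
  congr 1
  rcases lt_or_ge i p with hi | hi
  · have hT' : ∀ t ∈ T, t.1 ≤ (⟨i, hi⟩ : Fin p) := fun t ht => hT t ht
    rw [key1 a b ⟨i, hi⟩ T hT', key1 a' b ⟨i, hi⟩ T hT']
    have hw : ∀ k : Fin p, ∀ t ∈ T.filter (fun t => t.1 < (⟨i, hi⟩ : Fin p)),
        w a b k t = w a' b k t := fun k t ht => w_congr (ha t.1 (mem_filter.mp ht).2)
    congr 1
    · exact sum_congr rfl fun k _ => prod_congr rfl (hw k)
    · rw [prod_congr rfl (hw _)]
  · exact sum_congr rfl fun k _ => prod_congr rfl fun t _ => w_congr (ha t.1 (t.1.2.trans_le hi))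

end Pool.Agent.Work.MP_eef58c_lc
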