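import Pool.Agent.Work.MP_eef58c_lc.G1

set_option autoImplicit false

/-!
# MP_eef58c_lc, module G3 (M): the value of a matching

Fix `b`, `T_b = T.filter (t.2.1 = b)`, `Ts` = special slots of `T_b`, `Tn` = the others. Since the weights are in `[0,1]`:
`1 - ∏ (T_b) w ≤ (1 - ∏ (Tn) w) + ∑ (t ∈ Ts) (1 - w)` (`1 - x*y ≤ (1-x) + (1-y)` and `1 - ∏ ≤ ∑ (1 - ·)`,
`Finset.prod_add_prod_le` or induction; Mathlib: `Finset.one_sub_sum_le_prod_one_sub` or an easy induction).
For `t ∈ Ts`: `∑ k, (1 - w a b k t) = 1` (only `k = t.1` gives 1). So the special part contributes at most `Ts.card`.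
For `Tn`: at most one slot for each phase `i` (hypothesis `hT`), so `∏ (Tn) w a b k t ≥ ∏ (i ≤ k) pr p i = (p - k - 1) / p`
(telescoping: `pr p i = (p - i - 1) / (p - i)`), and `∑ k, (1 - (p-k-1)/p) = ∑ k, (k+1)/p = (p+1)/2`.
Sum over `b`: `(m+1) * ((p+1)/2) + (T.filter (sp a)).card`.
-/

namespace Pool.Agent.Work.MP_eef58c_lc

open Finset

private lemma one_sub_prod_le {ι : Type} [DecidableEq ι] (s : Finset ι) (f : ι → ℝ)
    (h0 : ∀ i ∈ s, 0 ≤ f i) (h1 : ∀ i ∈ s, f i ≤ 1) : 1 - ∏ i ∈ s, f i ≤ ∑ i ∈ s, (1 - f i) := by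
  induction s using Finset.induction_on with
  | empty => simp
  | insert x s hx ih =>
    rw [prod_insert hx, sum_insert hx]
    have a0 := h0 x (mem_insert_self _ _)
    have a1 := h1 x (mem_insert_self _ _)
    have ih' := ih (fun i hi => h0 i (mem_insert_of_mem hi)) (fun i hi => h1 i (mem_insert_of_mem hi))
    have p0 : 0 ≤ ∏ i ∈ s, f i := prod_nonneg fun i hi => h0 i (mem_insert_of_mem hi)
    have p1 : ∏ i ∈ s, f i ≤ 1 := prod_le_one (fun i hi => h0 i (mem_insert_of_mem hi))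
      (fun i hi => h1 i (mem_insert_of_mem hi))
    nlinarith [mul_nonneg (sub_nonneg.mpr a1) (sub_nonneg.mpr p1)]

private lemma prod_pr (p : ℕ) (hp : 0 < p) (j : ℕ) (hj : j ≤ p) :
    ∏ i ∈ range j, pr p i = ((p : ℝ) - j) / p := by
  induction j with
  | zero =>
    have : (p : ℝ) ≠ 0 := by exact_mod_cast hp.ne'
    simp [this]
  | succ j ih =>
    rw [prod_range_succ, ih (by omega)]
    unfold pr
    have h1 : (p : ℝ) ≠ 0 := by exact_mod_cast hp.ne'
    have h2 : (p : ℝ) - j ≠ 0 := by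
      have : (j : ℝ) < p := by exact_mod_cast hj
      linarith
    push_cast
    field_simp
    ring

private lemma pr_mem {p i : ℕ} (h : i < p) : 0 ≤ pr p i ∧ pr p i ≤ 1 := by
  have h1 : (1 : ℝ) ≤ (p : ℝ) - i := by
    have : ((i + 1 : ℕ) : ℝ) ≤ p := by exact_mod_cast h
    push_cast at this
    linarith
  unfold pr
  constructor
  · have : 1 / ((p : ℝ) - i) ≤ 1 := by
      rw [div_le_one (by linarith)]
      exact h1
    linarith
  · have : 0 ≤ 1 / ((p : ℝ) - i) := by positivity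
    linarith

private lemma nonspec {p m : ℕ} (a : Fin p → Fin (m + 1)) {T : Finset (K p m)}
    (hT : ∀ t ∈ T, ∀ t' ∈ T, t.1 = t'.1 → t.2.1 = t'.2.1 → t = t') (b : Fin (m + 1)) (k : Fin p) :
    ((p : ℝ) - (k + 1)) / p ≤ ∏ t ∈ T.filter (fun t => ¬ sp a t), w a b k t := by
  have hp : 0 < p := lt_of_le_of_lt (Nat.zero_le _) k.2
  set S := T.filter (fun t => ¬ sp a t ∧ t.2.1 = b ∧ t.1 ≤ k) with hS
  have h1 : ∏ t ∈ T.filter (fun t => ¬ sp a t), w a b k t = ∏ t ∈ S, pr p (t.1 : ℕ) := by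
    have : S = (T.filter (fun t => ¬ sp a t)).filter (fun t => t.2.1 = b ∧ t.1 ≤ k) := by
      rw [hS, filter_filter]
    rw [this]
    rw [← prod_filter_of_ne (s := T.filter (fun t => ¬ sp a t))
      (p := fun t => t.2.1 = b ∧ t.1 ≤ k)]
    · refine prod_congr rfl fun t ht => ?_
      obtain ⟨h2, h3, h4⟩ := mem_filter.mp ht
      have h5 := (mem_filter.mp h2).2
      unfold w
      rw [if_pos h3, if_neg h5, if_pos h4]
    · intro t ht h
      have h5 := (mem_filter.mp ht).2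
      by_contra hb
      apply h
      unfold w
      by_cases h3 : t.2.1 = b
      · rw [if_pos h3, if_neg h5, if_neg fun h4 => hb ⟨h3, h4⟩]
      · rw [if_neg h3]
  have hinj : ∀ t ∈ S, ∀ t' ∈ S, (t.1 : ℕ) = (t'.1 : ℕ) → t = t' := by
    intro t ht t' ht' he
    obtain ⟨h2, h3, h4, h5⟩ := mem_filter.mp ht
    obtain ⟨h2', h3', h4', h5'⟩ := mem_filter.mp ht'
    exact hT t h2 t' h2' (Fin.ext he) (h4.trans h4'.symm)
  have h2 : ∏ t ∈ S, pr p (t.1 : ℕ) = ∏ i ∈ S.image (fun t => (t.1 : ℕ)), pr p i := by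
    rw [prod_image hinj]
  have hsub : S.image (fun t => (t.1 : ℕ)) ⊆ range ((k : ℕ) + 1) := by
    intro i hi
    obtain ⟨t, ht, rfl⟩ := mem_image.mp hi
    obtain ⟨h2, h3, h4, h5⟩ := mem_filter.mp ht
    rw [mem_range]
    have : (t.1 : ℕ) ≤ k := h5
    omega
  rw [h1, h2]
  have h3 := prod_pr p hp ((k : ℕ) + 1) k.2
  push_cast at h3
  rw [← h3, ← prod_sdiff hsub]
  have hle : ∀ i ∈ range ((k : ℕ) + 1), 0 ≤ pr p i ∧ pr p i ≤ 1 := fun i hi =>
    pr_mem (by have := mem_range.mp hi; have := k.2; omega)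
  have p1 : ∏ i ∈ range ((k : ℕ) + 1) \ S.image (fun t => (t.1 : ℕ)), pr p i ≤ 1 :=
    prod_le_one (fun i hi => (hle i (mem_sdiff.mp hi).1).1) (fun i hi => (hle i (mem_sdiff.mp hi).1).2)
  have p0 : 0 ≤ ∏ i ∈ S.image (fun t => (t.1 : ℕ)), pr p i :=
    prod_nonneg fun i hi => (hle i (hsub hi)).1
  calc _ ≤ 1 * ∏ i ∈ S.image (fun t => (t.1 : ℕ)), pr p i := mul_le_mul_of_nonneg_right p1 p0
    _ = _ := one_mul _

private lemma sum_tri (p : ℕ) (hp : 0 < p) :
    ∑ k : Fin p, (1 - ((p : ℝ) - (k + 1)) / p) = ((p : ℝ) + 1) / 2 := by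
  have hpR : (p : ℝ) ≠ 0 := by exact_mod_cast hp.ne'
  have h1 : ∀ k : Fin p, (1 - ((p : ℝ) - ((k : ℕ) + 1)) / p) = (((k : ℕ) : ℝ) + 1) / p := by
    intro k
    field_simp
    ring
  have h2 : ∀ n : ℕ, ∑ k ∈ range n, ((k : ℝ) + 1) = (n : ℝ) * (n + 1) / 2 := by
    intro n
    induction n with
    | zero => simp
    | succ n ih =>
      rw [sum_range_succ, ih]
      push_cast
      ring
  rw [sum_congr rfl fun k _ => h1 k, ← sum_div, Fin.sum_univ_eq_sum_range (fun k => (k : ℝ) + 1) p,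
    h2]
  field_simp

private lemma one_b {p m : ℕ} (a : Fin p → Fin (m + 1)) {T : Finset (K p m)}
    (hT : ∀ t ∈ T, ∀ t' ∈ T, t.1 = t'.1 → t.2.1 = t'.2.1 → t = t') (b : Fin (m + 1)) :
    ∑ k, (1 - ∏ t ∈ T, w a b k t) ≤ ((p : ℝ) + 1) / 2 +
      ∑ t ∈ T.filter (sp a), if t.2.1 = b then (1 : ℝ) else 0 := by
  rcases Nat.eq_zero_or_pos p with h0 | hp
  · subst h0
    have : ∑ k : Fin 0, (1 - ∏ t ∈ T, w a b k t) = 0 := by simp
    rw [this]
    have h2 : 0 ≤ ∑ t ∈ T.filter (sp a), if t.2.1 = b then (1 : ℝ) else 0 :=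
      sum_nonneg fun t _ => by split_ifs <;> norm_num
    have h3 : (0 : ℝ) ≤ (((0 : ℕ) : ℝ) + 1) / 2 := by norm_num
    linarith
  · have h1 : ∀ k : Fin p, 1 - ∏ t ∈ T, w a b k t ≤ (1 - ((p : ℝ) - ((k : ℕ) + 1)) / p) +
        ∑ t ∈ T.filter (sp a), (1 - w a b k t) := by
      intro k
      rw [← prod_filter_mul_prod_filter_not T (sp a)]
      have h2 := one_sub_prod_le (T.filter (sp a)) (fun t => w a b k t)
        (fun t _ => w_nonneg a b k t) (fun t _ => w_le_one a b k t)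
      have h3 := nonspec a hT b k
      have x0 : 0 ≤ ∏ t ∈ T.filter (sp a), w a b k t := prod_nonneg fun t _ => w_nonneg a b k t
      have x1 : ∏ t ∈ T.filter (sp a), w a b k t ≤ 1 :=
        prod_le_one (fun t _ => w_nonneg a b k t) (fun t _ => w_le_one a b k t)
      have y1 : ∏ t ∈ T.filter (fun t => ¬ sp a t), w a b k t ≤ 1 :=
        prod_le_one (fun t _ => w_nonneg a b k t) (fun t _ => w_le_one a b k t)
      nlinarith [mul_nonneg (sub_nonneg.mpr x1) (sub_nonneg.mpr y1)]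
    calc ∑ k, (1 - ∏ t ∈ T, w a b k t)
        ≤ ∑ k : Fin p, ((1 - ((p : ℝ) - ((k : ℕ) + 1)) / p) +
          ∑ t ∈ T.filter (sp a), (1 - w a b k t)) := sum_le_sum fun k _ => h1 k
      _ = ((p : ℝ) + 1) / 2 + ∑ t ∈ T.filter (sp a), ∑ k, (1 - w a b k t) := by
          rw [sum_add_distrib, sum_tri p hp, sum_comm]
      _ = _ := by
          congr 1
          refine sum_congr rfl fun t ht => ?_
          have hs := (mem_filter.mp ht).2
          by_cases hb : t.2.1 = b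
          · rw [if_pos hb]
            have : ∀ k, 1 - w a b k t = if t.1 = k then (1 : ℝ) else 0 := by
              intro k
              unfold w
              rw [if_pos hb, if_pos hs]
              split_ifs <;> norm_num
            rw [sum_congr rfl fun k _ => this k, sum_ite_eq, if_pos (mem_univ _)]
          · rw [if_neg hb]
            refine sum_eq_zero fun k _ => ?_
            unfold w
            rw [if_neg hb, sub_self]

theorem g_upper {p m : ℕ} (a : Fin p → Fin (m + 1)) {T : Finset (K p m)}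
    (hT : ∀ t ∈ T, ∀ t' ∈ T, t.1 = t'.1 → t.2.1 = t'.2.1 → t = t') :
    g a T ≤ ((m : ℝ) + 1) * (((p : ℝ) + 1) / 2) + ((T.filter (sp a)).card : ℝ) := by
  unfold g
  calc ∑ b, ∑ k, (1 - ∏ t ∈ T, w a b k t)
      ≤ ∑ b : Fin (m + 1), (((p : ℝ) + 1) / 2 +
        ∑ t ∈ T.filter (sp a), if t.2.1 = b then (1 : ℝ) else 0) :=
        sum_le_sum fun b _ => one_b a hT b
    _ = ((m : ℝ) + 1) * (((p : ℝ) + 1) / 2) + ((T.filter (sp a)).card : ℝ) := by
        rw [sum_add_distrib, sum_const, card_univ, Fintype.card_fin, nsmul_eq_mul, sum_comm]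
        push_cast
        congr 1
        rw [sum_congr rfl fun t _ => by rw [sum_ite_eq, if_pos (mem_univ _)], sum_const,
          nsmul_eq_mul, mul_one]

end Pool.Agent.Work.MP_eef58c_lc
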