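import Pool.Agent.Work.MP_eef58c_lc.Defs

set_option autoImplicit false

/-!
# MP_eef58c_lc, module G4 (S): the value of the special slots

For all `b`, `k` the slot `t = (k, b, b + a k)` is special and `w a b k t = 0`, so every product vanishes.
-/

namespace Pool.Agent.Work.MP_eef58c_lc

open Finset

theorem g_special {p m : ℕ} (a : Fin p → Fin (m + 1)) :
    g a (univ.filter (sp a)) = ((m : ℝ) + 1) * p := by
  have h : ∀ (b : Fin (m + 1)) (k : Fin p), ∏ t ∈ univ.filter (sp a), w a b k t = 0 := by
    intro b k
    apply Finset.prod_eq_zero (i := ((k, b, b + a k) : K p m))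
    · simp [sp]
    · simp [w, sp]
  simp only [g, h, sub_zero, Finset.sum_const, Finset.card_univ, Fintype.card_fin, nsmul_eq_mul, mul_one]
  push_cast
  ring

end Pool.Agent.Work.MP_eef58c_lc
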