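import Pool.Agent.Work.MP_eef58c_lc.Defs

set_option autoImplicit false

/-!
# MP_eef58c_lc, module G5 (M): edges and streams

`E_inj`: `Sym2.eq_iff`, `ι` is injective, `Sum.inl ≠ Sum.inr`.
`mem_pre`: `List.mem_flatMap`, membership in `(List.finRange p).take j` is `(i : ℕ) < j` (`List.mem_take_iff_getElem` or
`List.take`/`finRange` lemmas). `nodup_pre`: `List.nodup_flatMap`, pairwise disjoint. `pre_split`: `List.take_append_drop` on `finRange p`
(`r` = flatMap over the `drop j` part) and `take p (finRange p) = finRange p`.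
`bip_strm`: `X` = image of `ι ∘ Sum.inl`.
-/

namespace Pool.Agent.Work.MP_eef58c_lc

open Finset

theorem E_inj {p m n : ℕ} (ι : Vx p m ↪ Fin n) {t t' : K p m} {β β' : Bool} (h : E ι t β = E ι t' β') :
    t = t' ∧ β = β' := by
  obtain ⟨i, b, c⟩ := t
  obtain ⟨i', b', c'⟩ := t'
  simp only [E, Sym2.eq_iff, EmbeddingLike.apply_eq_iff_eq, Sum.inl.injEq, Sum.inr.injEq, Prod.mk.injEq,
    reduceCtorEq, and_self, or_false] at h
  obtain ⟨⟨h1, h2⟩, _, h3, h4⟩ := h
  subst h1 h2 h3 h4
  simp

private theorem mem_take_finRange {p j : ℕ} {i : Fin p} : i ∈ (List.finRange p).take j ↔ (i : ℕ) < j := by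
  rw [List.mem_take_iff_getElem]
  constructor
  · rintro ⟨k, hk, h⟩
    rw [List.getElem_finRange] at h
    subst h
    simpa using (lt_min_iff.1 hk).1
  · intro h
    refine ⟨i, ?_, ?_⟩
    · rw [lt_min_iff]
      exact ⟨h, by simp⟩
    · rw [List.getElem_finRange]
      simp

private theorem mem_drop_finRange {p j : ℕ} {i : Fin p} (h : i ∈ (List.finRange p).drop j) : j ≤ (i : ℕ) := by
  rw [List.mem_drop_iff_getElem] at h
  obtain ⟨k, hk, h⟩ := h
  rw [List.getElem_finRange] at h
  subst h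
  simp

theorem mem_pre {p m j : ℕ} {t : K p m} : t ∈ pre p m j ↔ (t.1 : ℕ) < j := by
  obtain ⟨i, b, c⟩ := t
  simp only [pre, List.mem_flatMap, List.mem_map, Prod.mk.injEq]
  constructor
  · rintro ⟨i', hi', b', _, c', _, h1, _, _⟩
    subst h1
    exact mem_take_finRange.1 hi'
  · intro h
    exact ⟨i, mem_take_finRange.2 h, b, List.mem_finRange b, c, List.mem_finRange c, rfl, rfl, rfl⟩

theorem nodup_pre (p m j : ℕ) : (pre p m j).Nodup := by
  rw [pre, List.nodup_flatMap]
  refine ⟨?_, ?_⟩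
  · intro i _
    rw [List.nodup_flatMap]
    refine ⟨?_, ?_⟩
    · intro b _
      exact (List.nodup_finRange _).map (fun c c' h => by simpa using h)
    · refine (List.nodup_finRange (m + 1)).imp ?_
      intro b b' hbb
      simp only [Function.onFun, List.disjoint_left, List.mem_map, not_exists, not_and]
      rintro _ ⟨c, _, rfl⟩ c' _ h
      simp only [Prod.mk.injEq] at h
      exact hbb h.2.1.symm
  · refine ((List.nodup_finRange p).sublist (List.take_sublist _ _)).imp ?_
    intro i i' hii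
    simp only [Function.onFun, List.disjoint_left, List.mem_flatMap, List.mem_map, not_exists, not_and]
    rintro _ ⟨b, _, c, _, rfl⟩ b' _ c' _ h
    simp only [Prod.mk.injEq] at h
    exact hii h.1.symm

theorem pre_split (p m : ℕ) {j : ℕ} (hj : j ≤ p) :
    ∃ r : List (K p m), pre p m p = pre p m j ++ r ∧ ∀ t ∈ r, j ≤ (t.1 : ℕ) := by
  refine ⟨((List.finRange p).drop j).flatMap fun i =>
    (List.finRange (m + 1)).flatMap fun b => (List.finRange (m + 1)).map fun c => (i, b, c), ?_, ?_⟩
  · rw [pre, pre, ← List.flatMap_append, List.take_append_drop]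
    congr 1
    exact List.take_of_length_le (by simp)
  · rintro ⟨i, b, c⟩ ht
    simp only [List.mem_flatMap, List.mem_map, Prod.mk.injEq] at ht
    obtain ⟨i', hi', b', _, c', _, h1, _, _⟩ := ht
    subst h1
    exact mem_drop_finRange hi'

theorem mem_strm {p m n : ℕ} {ι : Vx p m ↪ Fin n} {β : K p m → Bool} {j : ℕ} {e : Sym2 (Fin n)} :
    e ∈ strm ι β j ↔ ∃ t : K p m, (t.1 : ℕ) < j ∧ E ι t (β t) = e := by
  simp only [strm, List.mem_map, mem_pre]

theorem nodup_strm {p m n : ℕ} (ι : Vx p m ↪ Fin n) (β : K p m → Bool) (j : ℕ) : (strm ι β j).Nodup :=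
  (nodup_pre p m j).map fun _ _ h => (E_inj ι h).1

theorem strm_split {p m n : ℕ} (ι : Vx p m ↪ Fin n) (β : K p m → Bool) {j : ℕ} (hj : j ≤ p) :
    ∃ r : List (Sym2 (Fin n)), strm ι β p = strm ι β j ++ r ∧
      ∀ e ∈ r, ∃ t : K p m, j ≤ (t.1 : ℕ) ∧ E ι t (β t) = e := by
  obtain ⟨r, h1, h2⟩ := pre_split p m hj
  refine ⟨r.map fun t => E ι t (β t), ?_, ?_⟩
  · rw [strm, h1, List.map_append, strm]
  · intro e he
    obtain ⟨t, ht, rfl⟩ := List.mem_map.1 he
    exact ⟨t, h2 t ht, rfl⟩

theorem bip_strm {p m n : ℕ} (ι : Vx p m ↪ Fin n) (β : K p m → Bool) :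
    ∃ X : Finset (Fin n), ∀ e ∈ strm ι β p, ∃ u ∈ X, ∃ v, v ∉ X ∧ e = s(u, v) := by
  classical
  refine ⟨univ.image fun x => ι (Sum.inl x), ?_⟩
  intro e he
  obtain ⟨t, _, rfl⟩ := mem_strm.1 he
  refine ⟨ι (Sum.inl (t.1, t.2.1)), Finset.mem_image_of_mem _ (Finset.mem_univ _),
    ι (Sum.inr (t.1, t.2.2, β t)), ?_, rfl⟩
  simp

/-- two edges of a matching with the same left vertex are equal -/
theorem matching_slots {p m n : ℕ} (ι : Vx p m ↪ Fin n) (β : K p m → Bool) {M : Finset (Sym2 (Fin n))}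
    (hM : IsMatching M) : ∀ t ∈ slots ι β M, ∀ t' ∈ slots ι β M, t.1 = t'.1 → t.2.1 = t'.2.1 → t = t' := by
  intro t ht t' ht' h1 h2
  have e1 : E ι t (β t) ∈ M := (Finset.mem_filter.1 ht).2
  have e2 : E ι t' (β t') ∈ M := (Finset.mem_filter.1 ht').2
  have h := hM _ e1 _ e2 (ι (Sum.inl (t.1, t.2.1))) (by simp [E]) (by simp [E, h1, h2])
  exact (E_inj ι h).1

/-- the edges of the special slots form a matching of the graph -/
theorem special_matching {p m n : ℕ} (ι : Vx p m ↪ Fin n) (β : K p m → Bool) (a : Fin p → Fin (m + 1)) :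
    ∃ M ⊆ (strm ι β p).toFinset, IsMatching M ∧ slots ι β M = univ.filter (sp a) := by
  classical
  refine ⟨(univ.filter (sp a)).image fun t => E ι t (β t), ?_, ?_, ?_⟩
  · intro e he
    obtain ⟨t, _, rfl⟩ := Finset.mem_image.1 he
    rw [List.mem_toFinset]
    exact mem_strm.2 ⟨t, t.1.2, rfl⟩
  · intro e he e' he' v hv hv'
    obtain ⟨⟨i, b, c⟩, ht, rfl⟩ := Finset.mem_image.1 he
    obtain ⟨⟨i', b', c'⟩, ht', rfl⟩ := Finset.mem_image.1 he'
    have hs : c = b + a i := (Finset.mem_filter.1 ht).2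
    have hs' : c' = b' + a i' := (Finset.mem_filter.1 ht').2
    simp only [E, Sym2.mem_iff] at hv hv'
    have key : i = i' ∧ b = b' := by
      rcases hv with hv | hv <;> rcases hv' with hv' | hv'
      · rw [hv] at hv'
        have := ι.injective hv'
        simpa using this
      · rw [hv] at hv'
        have := ι.injective hv'
        simp at this
      · rw [hv] at hv'
        have := ι.injective hv'
        simp at this
      · rw [hv] at hv'
        have := ι.injective hv'
        simp only [Sum.inr.injEq, Prod.mk.injEq] at this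
        obtain ⟨h1, h2, _⟩ := this
        subst h1
        rw [hs, hs'] at h2
        exact ⟨rfl, add_right_cancel h2⟩
    obtain ⟨h1, h2⟩ := key
    subst h1 h2
    rw [hs, hs']
  · ext t
    simp only [slots, Finset.mem_filter, Finset.mem_univ, true_and, Finset.mem_image]
    constructor
    · rintro ⟨t', ht', h⟩
      rw [← (E_inj ι h).1]
      exact ht'
    · intro h
      exact ⟨t, h, rfl⟩

theorem card_slots_le {p m n : ℕ} (ι : Vx p m ↪ Fin n) (β : K p m → Bool) (S : Finset (Sym2 (Fin n))) :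
    (slots ι β S).card ≤ S.card := by
  classical
  refine Finset.card_le_card_of_injOn (fun t => E ι t (β t)) ?_ ?_
  · intro t ht
    exact (Finset.mem_filter.1 ht).2
  · intro t _ t' _ h
    exact (E_inj ι h).1

end Pool.Agent.Work.MP_eef58c_lc
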