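import Pool.Agent.Work.MP_eef58c_lc.G1
import Pool.Agent.Work.MP_eef58c_lc.G2
import Pool.Agent.Work.MP_eef58c_lc.G5

set_option autoImplicit false

/-!
# MP_eef58c_lc, module G6 (S-M): the function of the instance; sets held by an algorithm

`slots` commutes with union and intersection and is monotone (`mem_filter`), so `f` inherits everything from `g` (G1).
`f_local`: for `S ⊆ (strm ι β (i+1)).toFinset` every `t ∈ slots ι β S` has `t.1 ≤ i` (`mem_strm`, `E_inj`); `g_local` (G2).
`held_sub`: induction on the list from the right (`List.reverseRecOn`), `A.start`, `A.step`.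
`held_append`: induction on `r` from the right.
-/

namespace Pool.Agent.Work.MP_eef58c_lc

open Finset

theorem f_empty {p m n : ℕ} (ι : Vx p m ↪ Fin n) (β : K p m → Bool) (a : Fin p → Fin (m + 1)) :
    f ι β a ∅ = 0 := by
  have h : slots ι β ∅ = ∅ := by
    ext t
    simp [slots]
  rw [f, h, g_empty]

theorem f_mono {p m n : ℕ} (ι : Vx p m ↪ Fin n) (β : K p m → Bool) (a : Fin p → Fin (m + 1)) :
    Monotone (f ι β a) := by
  intro S T hST
  apply g_mono
  intro t ht
  simp only [slots, mem_filter, mem_univ, true_and] at ht ⊢
  exact hST ht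

theorem f_submod {p m n : ℕ} (ι : Vx p m ↪ Fin n) (β : K p m → Bool) (a : Fin p → Fin (m + 1)) :
    Submod (f ι β a) := by
  intro S T
  have h1 : slots ι β (S ∪ T) = slots ι β S ∪ slots ι β T := by
    ext t
    simp only [slots, mem_filter, mem_univ, true_and, mem_union]
  have h2 : slots ι β (S ∩ T) = slots ι β S ∩ slots ι β T := by
    ext t
    simp only [slots, mem_filter, mem_univ, true_and, mem_inter]
  rw [f, f, f, f, h1, h2]
  exact g_submod a _ _

theorem f_local {p m n : ℕ} (ι : Vx p m ↪ Fin n) (β : K p m → Bool) {a a' : Fin p → Fin (m + 1)} {i : ℕ}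
    (ha : ∀ j : Fin p, (j : ℕ) < i → a j = a' j) :
    ∀ S ⊆ (strm ι β (i + 1)).toFinset, f ι β a S = f ι β a' S := by
  intro S hS
  rw [f, f]
  have key : ∀ t ∈ slots ι β S, (t.1 : ℕ) ≤ i := by
    intro t ht
    simp only [slots, mem_filter, mem_univ, true_and] at ht
    have h1 := hS ht
    rw [List.mem_toFinset, mem_strm] at h1
    obtain ⟨t', ht', hE⟩ := h1
    have h2 := (E_inj ι hE).1
    rw [← h2]
    omega
  exact g_local key ha

theorem held_sub {n s : ℕ} (A : Alg n s) (l : List (Sym2 (Fin n))) (F : Finset (Sym2 (Fin n)) → ℝ) :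
    A.held (A.state l F) ⊆ l.toFinset := by
  induction l using List.reverseRecOn with
  | nil => rw [A.start F]; exact Finset.empty_subset _
  | append_singleton l e ih =>
    refine (A.step l e F).trans ?_
    intro x hx
    rw [mem_insert] at hx
    rw [List.mem_toFinset, List.mem_append]
    rcases hx with rfl | hx
    · right; simp
    · left; exact List.mem_toFinset.1 (ih hx)

theorem held_append {n s : ℕ} (A : Alg n s) (l r : List (Sym2 (Fin n))) (F : Finset (Sym2 (Fin n)) → ℝ) :
    A.held (A.state (l ++ r) F) ⊆ A.held (A.state l F) ∪ r.toFinset := by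
  induction r using List.reverseRecOn with
  | nil => simp
  | append_singleton r e ih =>
    rw [← List.append_assoc]
    refine (A.step (l ++ r) e F).trans ?_
    intro x hx
    rw [mem_insert] at hx
    rw [mem_union, List.mem_toFinset, List.mem_append]
    rcases hx with rfl | hx
    · right; right; simp
    · have := ih hx
      rw [mem_union, List.mem_toFinset] at this
      rcases this with h | h
      · left; exact h
      · right; left; exact h

end Pool.Agent.Work.MP_eef58c_lc
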