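import Pool.Agent.Work.MP_eef58c_lc.Defs

set_option autoImplicit false

/-!
# MP_eef58c_lc, module G7 (S-M): averaging over the shift of phase `i`

Put `F a = ((Φ a).filter (t.1 = i ∧ sp a t)).card`. For every function `F`: `∑ a, ∑ x, F (update a i x) = (m+1) * ∑ a, F a`
(the map `(a, x) ↦ (update a i x, a i)` is an involution of pairs, or `Fintype.sum_equiv` with `Equiv.funSplitAt`).
And for fixed `a`: `∑ x, F (update a i x) = ∑ x, #{t ∈ Φ a : t.1 = i, t.2.2 = t.2.1 + x} ≤ #(Φ a)`: the sets for different `x` are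
disjoint subsets of `Φ a` (`card_biUnion` or `card_eq_sum_card_fiberwise`).
-/

namespace Pool.Agent.Work.MP_eef58c_lc

open Finset

private theorem g7_swap {p m : ℕ} (i : Fin p) (F : (Fin p → Fin (m + 1)) → ℕ) :
    ∑ a, ∑ x, F (Function.update a i x) = (m + 1) * ∑ a, F a := by
  classical
  have h1 : ∑ z : (Fin p → Fin (m + 1)) × Fin (m + 1), F (Function.update z.1 i z.2) =
      ∑ z : (Fin p → Fin (m + 1)) × Fin (m + 1), F z.1 := by
    apply Finset.sum_bij' (fun z _ => (Function.update z.1 i z.2, z.1 i))
      (fun z _ => (Function.update z.1 i z.2, z.1 i))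
    · intro z _; simp
    · intro z _; simp
    · intro z _; simp
    · intro z _; simp
    · intro z _; simp
  rw [Fintype.sum_prod_type, Fintype.sum_prod_type] at h1
  rw [h1, Finset.mul_sum]
  refine Finset.sum_congr rfl fun a _ => ?_
  simp

theorem avg {p m : ℕ} (i : Fin p) (Φ : (Fin p → Fin (m + 1)) → Finset (K p m))
    (hΦ : ∀ a x, Φ (Function.update a i x) = Φ a) :
    (m + 1) * ∑ a, ((Φ a).filter (fun t => t.1 = i ∧ sp a t)).card ≤ ∑ a, (Φ a).card := by
  classical
  rw [← g7_swap i (fun a => ((Φ a).filter (fun t => t.1 = i ∧ sp a t)).card)]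
  refine Finset.sum_le_sum fun a _ => ?_
  have h1 : ∀ x : Fin (m + 1),
      ((Φ (Function.update a i x)).filter (fun t => t.1 = i ∧ sp (Function.update a i x) t)).card =
      ((Φ a).filter (fun t => t.1 = i ∧ t.2.2 = t.2.1 + x)).card := by
    intro x
    rw [hΦ]
    congr 1
    ext t
    simp only [mem_filter, sp]
    constructor
    · rintro ⟨h, h', h''⟩
      refine ⟨h, h', ?_⟩
      rw [h', Function.update_self] at h''
      exact h''
    · rintro ⟨h, h', h''⟩
      refine ⟨h, h', ?_⟩
      rw [h', Function.update_self]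
      exact h''
  simp only [h1]
  rw [← Finset.card_biUnion]
  · apply Finset.card_le_card
    intro t ht
    simp only [mem_biUnion, mem_filter] at ht
    obtain ⟨x, _, h, _⟩ := ht
    exact h
  · intro x _ y _ hxy
    show Disjoint _ _
    rw [Finset.disjoint_left]
    intro t ht ht'
    simp only [mem_filter] at ht ht'
    apply hxy
    have := ht.2.2.symm.trans ht'.2.2
    exact add_left_cancel this

end Pool.Agent.Work.MP_eef58c_lc
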