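import Pool.Agent.Work.MP_eef58c_lc.G5

set_option autoImplicit false

/-!
# MP_eef58c_lc, module G8 (M): few states can name many random edges

For fixed `σ` with `X = held σ`, `s + r ≤ X.card`: the set `B_σ` of the `β` with `∀ e ∈ X, ∃ t, E ι t (β t) = e` satisfies
`B_σ.card * 2 ^ X.card ≤ 2 ^ card (K p m)`: if `β₀ ∈ B_σ` put `Y = univ.filter (fun t => E ι t (β₀ t) ∈ X)`; then `Y.card = X.card`
(bijection `t ↦ E ι t (β₀ t)`, `E_inj`), and every `β ∈ B_σ` agrees with `β₀` on `Y`: for `t ∈ Y`, `E ι t (β₀ t) = E ι t' (β t')` for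
some `t'`, so `t = t'` and `β₀ t = β t`. The functions `β` which agree with `β₀` on `Y` are `2 ^ (card K - Y.card)` many
(`Fintype.piFinset`, or inject `β` into its restriction to the complement of `Y`).
Hence `B_σ.card * 2 ^ (s + r) ≤ 2 ^ card K`; sum over the `2 ^ s` states and cancel `2 ^ s`.
-/

namespace Pool.Agent.Work.MP_eef58c_lc

open Finset

/-- functions which agree with a fixed function on a set `Y` -/
private theorem g8_agree {κ : Type} [Fintype κ] [DecidableEq κ] (B : Finset (κ → Bool)) (Y : Finset κ) (β₀ : κ → Bool)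
    (h : ∀ β ∈ B, ∀ t ∈ Y, β t = β₀ t) : B.card * 2 ^ Y.card ≤ Fintype.card (κ → Bool) := by
  have h1 : B.card * 2 ^ Y.card = Fintype.card ({β // β ∈ B} × ({t // t ∈ Y} → Bool)) := by
    simp
  rw [h1]
  refine Fintype.card_le_of_injective
    (fun z t => if ht : t ∈ Y then z.2 ⟨t, ht⟩ else z.1.1 t) ?_
  rintro ⟨⟨β, hβ⟩, γ⟩ ⟨⟨β', hβ'⟩, γ'⟩ hz
  have hz' : ∀ t, (if ht : t ∈ Y then γ ⟨t, ht⟩ else β t) = (if ht : t ∈ Y then γ' ⟨t, ht⟩ else β' t) :=
    fun t => congrFun hz t
  have e1 : β = β' := by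
    funext t
    by_cases ht : t ∈ Y
    · rw [h β hβ t ht, h β' hβ' t ht]
    · have := hz' t
      rwa [dif_neg ht, dif_neg ht] at this
  have e2 : γ = γ' := by
    funext t
    have := hz' t.1
    rwa [dif_pos t.2, dif_pos t.2] at this
  subst e1
  subst e2
  rfl

open Classical in
private theorem g8_one {p m n s : ℕ} (ι : Vx p m ↪ Fin n) (X : Finset (Sym2 (Fin n))) (r : ℕ) :
    (univ.filter fun β : K p m → Bool =>
      (∀ e ∈ X, ∃ t, E ι t (β t) = e) ∧ s + r ≤ X.card).card * 2 ^ (s + r) ≤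
      Fintype.card (K p m → Bool) := by
  rcases Finset.eq_empty_or_nonempty (univ.filter fun β : K p m → Bool =>
      (∀ e ∈ X, ∃ t, E ι t (β t) = e) ∧ s + r ≤ X.card) with h | ⟨β₀, h⟩
  · rw [h]; simp
  · rw [mem_filter] at h
    obtain ⟨_, h1, h2⟩ := h
    set Y : Finset (K p m) := univ.filter (fun t => E ι t (β₀ t) ∈ X) with hY
    have hXY : X.card ≤ Y.card := by
      have : X ⊆ Y.image (fun t => E ι t (β₀ t)) := by
        intro e he
        obtain ⟨t, ht⟩ := h1 e he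
        rw [mem_image]
        refine ⟨t, ?_, ht⟩
        rw [hY, mem_filter]
        refine ⟨mem_univ _, ?_⟩
        rw [ht]; exact he
      exact (card_le_card this).trans card_image_le
    refine (Nat.mul_le_mul_left _ (Nat.pow_le_pow_right (by norm_num) (h2.trans hXY))).trans ?_
    refine g8_agree _ Y β₀ ?_
    intro β hβ t ht
    rw [mem_filter] at hβ
    rw [hY, mem_filter] at ht
    obtain ⟨t', ht'⟩ := hβ.2.1 _ ht.2
    obtain ⟨e1, e2⟩ := E_inj ι ht'
    subst e1
    exact e2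

open Classical in
theorem bits {p m n s : ℕ} (ι : Vx p m ↪ Fin n) (held : Fin (2 ^ s) → Finset (Sym2 (Fin n))) (r : ℕ) :
    (univ.filter fun β : K p m → Bool =>
      ∃ σ, (∀ e ∈ held σ, ∃ t, E ι t (β t) = e) ∧ s + r ≤ (held σ).card).card * 2 ^ r ≤
      Fintype.card (K p m → Bool) := by
  have h1 : (univ.filter fun β : K p m → Bool =>
      ∃ σ, (∀ e ∈ held σ, ∃ t, E ι t (β t) = e) ∧ s + r ≤ (held σ).card) ⊆
      (univ : Finset (Fin (2 ^ s))).biUnion (fun σ => univ.filter fun β : K p m → Bool =>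
        (∀ e ∈ held σ, ∃ t, E ι t (β t) = e) ∧ s + r ≤ (held σ).card) := by
    intro β hβ
    rw [mem_filter] at hβ
    obtain ⟨_, σ, hσ⟩ := hβ
    rw [mem_biUnion]
    exact ⟨σ, mem_univ _, mem_filter.2 ⟨mem_univ _, hσ⟩⟩
  have h2 := (card_le_card h1).trans card_biUnion_le
  have h3 : (∑ σ : Fin (2 ^ s), (univ.filter fun β : K p m → Bool =>
        (∀ e ∈ held σ, ∃ t, E ι t (β t) = e) ∧ s + r ≤ (held σ).card).card) * 2 ^ (s + r) ≤
      2 ^ s * Fintype.card (K p m → Bool) := by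
    rw [Finset.sum_mul]
    calc _ ≤ ∑ σ : Fin (2 ^ s), Fintype.card (K p m → Bool) :=
          Finset.sum_le_sum fun σ _ => g8_one (s := s) ι (held σ) r
      _ = _ := by rw [Finset.sum_const, smul_eq_mul, Finset.card_univ, Fintype.card_fin]
  have h4 := (Nat.mul_le_mul_right (2 ^ (s + r)) h2).trans h3
  rw [pow_add, mul_left_comm] at h4
  exact Nat.le_of_mul_le_mul_left h4 (by positivity)

end Pool.Agent.Work.MP_eef58c_lc
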