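import Pool.Agent.Work.MP_eef58c_lc.G3
import Pool.Agent.Work.MP_eef58c_lc.G4
import Pool.Agent.Work.MP_eef58c_lc.G6
import Pool.Agent.Work.MP_eef58c_lc.G7
import Pool.Agent.Work.MP_eef58c_lc.G8

set_option autoImplicit false

/-!
# MP_eef58c_lc, module G9 (M): deterministic algorithms succeed on few instances

Call `β` bad if `∃ σ, (∀ e ∈ A.held σ, ∃ t, E ι t (β t) = e) ∧ s + r ≤ (A.held σ).card`; by `bits` at most `card / 2 ^ r` are bad.
Fix a good `β`. For a prefix `l` of the stream (`l = strm ι β j`) and any `F`: `(A.held (A.state l F)).card ≤ s + r`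
(`held_sub`, `mem_strm`).
For `i : Fin p` put `Φ i a = slots ι β (A.held (A.state (strm ι β (i+1)) (f ι β a)))`. `Φ i (update a i x) = Φ i a` by `A.oracle` and
`f_local`. So by `avg` (G7) and `card_slots_le`: `(m+1) * ∑ a, ((Φ i a).filter (t.1 = i ∧ sp a t)).card ≤ ∑ a, (s + r)`.
Put `Z a = ((slots ι β (A.held (A.state (strm ι β p) (f ι β a)))).filter (sp a)).card`. If `t` is counted by `Z a` and `i = t.1` then
`t ∈ Φ i a`: `strm_split` (with `j = i+1`) and `held_append`: the edge `E ι t (β t)` is held after phase `i` or it is an edge of a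
slot of a phase `≥ i+1`, impossible by `E_inj`. Hence `Z a ≤ ∑ i, ((Φ i a).filter (t.1 = i ∧ sp a t)).card` and
`(m+1) * ∑ a, Z a ≤ p * (s + r) * card (Fin p → Fin (m+1))`.
If `A.Succeeds α (strm ι β p) (f ι β a)` with the matching `M`, take `M'` from `special_matching`: `(m+1) * p = g a (special) = f M' ≤
α * f M` (`g_special`) and `f M ≤ (m+1)*((p+1)/2) + (slots M).filter (sp a) card ≤ (m+1)*((p+1)/2) + Z a` (`g_upper`,
`matching_slots`, `slots` monotone), so `(m+1) * γ ≤ Z a` (divide by `α`, hypothesis `h`).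
Hence for good `β`: `#{a : success} * (m+1) * γ ≤ ∑ a, Z a ≤ p (s+r) / (m+1) * card`. Sum over `β`, add the bad `β`.
-/

namespace Pool.Agent.Work.MP_eef58c_lc

open Finset

/-- the slots which are held after phase `j` -/
private noncomputable def Ph {p m n s : ℕ} (ι : Vx p m ↪ Fin n) (A : Alg n s) (β : K p m → Bool) (j : ℕ)
    (a : Fin p → Fin (m + 1)) : Finset (K p m) :=
  slots ι β (A.held (A.state (strm ι β j) (f ι β a)))

private theorem held_card {p m n s : ℕ} (ι : Vx p m ↪ Fin n) (A : Alg n s) {β : K p m → Bool} {r : ℕ}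
    (hβ : ¬ ∃ σ, (∀ e ∈ A.held σ, ∃ t, E ι t (β t) = e) ∧ s + r ≤ (A.held σ).card)
    (j : ℕ) (a : Fin p → Fin (m + 1)) : (Ph ι A β j a).card ≤ s + r := by
  by_contra hc
  apply hβ
  refine ⟨A.state (strm ι β j) (f ι β a), ?_, ?_⟩
  · intro e he
    have h1 := held_sub A (strm ι β j) (f ι β a) he
    rw [List.mem_toFinset, mem_strm] at h1
    obtain ⟨t, -, ht⟩ := h1
    exact ⟨t, ht⟩
  · have h1 := card_slots_le ι β (A.held (A.state (strm ι β j) (f ι β a)))
    have h2 : ¬ (slots ι β (A.held (A.state (strm ι β j) (f ι β a)))).card ≤ s + r := hc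
    omega

private theorem Ph_update {p m n s : ℕ} (ι : Vx p m ↪ Fin n) (A : Alg n s) (β : K p m → Bool) (i : Fin p)
    (a : Fin p → Fin (m + 1)) (x : Fin (m + 1)) :
    Ph ι A β (i + 1) (Function.update a i x) = Ph ι A β (i + 1) a := by
  have h : A.state (strm ι β (i + 1)) (f ι β (Function.update a i x)) =
      A.state (strm ι β (i + 1)) (f ι β a) := by
    apply A.oracle
    apply f_local
    intro j hj
    have hne : j ≠ i := by
      intro h
      rw [h] at hj
      exact lt_irrefl _ hj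
    simp [Function.update_of_ne hne]
  unfold Ph
  rw [h]

private theorem Z_le {p m n s : ℕ} (ι : Vx p m ↪ Fin n) (A : Alg n s) (β : K p m → Bool)
    (a : Fin p → Fin (m + 1)) :
    ((Ph ι A β p a).filter (sp a)).card ≤
      ∑ i : Fin p, ((Ph ι A β (i + 1) a).filter (fun t => t.1 = i ∧ sp a t)).card := by
  have hsub : (Ph ι A β p a).filter (sp a) ⊆
      univ.biUnion (fun i : Fin p => (Ph ι A β (i + 1) a).filter (fun t => t.1 = i ∧ sp a t)) := by
    intro t ht
    rw [mem_filter] at ht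
    obtain ⟨ht, hsp⟩ := ht
    rw [mem_biUnion]
    refine ⟨t.1, mem_univ _, ?_⟩
    rw [mem_filter]
    refine ⟨?_, rfl, hsp⟩
    unfold Ph slots at ht ⊢
    rw [mem_filter] at ht ⊢
    refine ⟨mem_univ _, ?_⟩
    obtain ⟨-, ht⟩ := ht
    obtain ⟨r, hr, hr'⟩ := strm_split ι β (j := (t.1 : ℕ) + 1) t.1.isLt
    rw [hr] at ht
    have h1 := held_append A _ _ _ ht
    rw [mem_union] at h1
    rcases h1 with h1 | h1
    · exact h1
    · exfalso
      rw [List.mem_toFinset] at h1
      obtain ⟨t', ht', he⟩ := hr' _ h1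
      have := (E_inj ι he).1
      rw [this] at ht'
      omega
  exact (card_le_card hsub).trans card_biUnion_le

private theorem sum_Z {p m n s : ℕ} (ι : Vx p m ↪ Fin n) (A : Alg n s) {β : K p m → Bool} {r : ℕ}
    (hβ : ¬ ∃ σ, (∀ e ∈ A.held σ, ∃ t, E ι t (β t) = e) ∧ s + r ≤ (A.held σ).card) :
    (m + 1) * ∑ a, ((Ph ι A β p a).filter (sp a)).card ≤
      p * (s + r) * Fintype.card (Fin p → Fin (m + 1)) := by
  calc (m + 1) * ∑ a, ((Ph ι A β p a).filter (sp a)).card
      ≤ (m + 1) * ∑ a, ∑ i : Fin p, ((Ph ι A β (i + 1) a).filter (fun t => t.1 = i ∧ sp a t)).card :=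
        Nat.mul_le_mul_left _ (sum_le_sum fun a _ => Z_le ι A β a)
    _ = ∑ i : Fin p, (m + 1) * ∑ a, ((Ph ι A β (i + 1) a).filter (fun t => t.1 = i ∧ sp a t)).card := by
        rw [sum_comm, mul_sum]
    _ ≤ ∑ i : Fin p, ∑ a, (Ph ι A β (i + 1) a).card :=
        sum_le_sum fun i _ => avg i (fun a => Ph ι A β (i + 1) a) fun a x => Ph_update ι A β i a x
    _ ≤ ∑ i : Fin p, ∑ a : Fin p → Fin (m + 1), (s + r) :=
        sum_le_sum fun i _ => sum_le_sum fun a _ => held_card ι A hβ _ a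
    _ = p * (s + r) * Fintype.card (Fin p → Fin (m + 1)) := by
        rw [sum_const, sum_const, card_univ, card_univ, Fintype.card_fin, smul_eq_mul, smul_eq_mul]
        ring

private theorem succ_Z {p m n s : ℕ} (ι : Vx p m ↪ Fin n) (A : Alg n s) {α γ : ℝ} (hα : 0 < α)
    (h : γ + ((p : ℝ) + 1) / 2 ≤ p / α) (β : K p m → Bool) (a : Fin p → Fin (m + 1))
    (hs : A.Succeeds α (strm ι β p) (f ι β a)) :
    ((m : ℝ) + 1) * γ ≤ (((Ph ι A β p a).filter (sp a)).card : ℝ) := by
  obtain ⟨M, hM, hMm, hbest⟩ := hs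
  obtain ⟨M', hM', hMm', hsl⟩ := special_matching ι β a
  have h1 := hbest M' hM' hMm'
  have h2 : f ι β a M' = ((m : ℝ) + 1) * p := by
    unfold f
    rw [hsl, g_special]
  have h3 : f ι β a M ≤ ((m : ℝ) + 1) * (((p : ℝ) + 1) / 2) + (((slots ι β M).filter (sp a)).card : ℝ) :=
    g_upper a (matching_slots ι β hMm)
  have h4 : ((slots ι β M).filter (sp a)).card ≤ ((Ph ι A β p a).filter (sp a)).card := by
    apply card_le_card
    apply filter_subset_filter
    intro t ht
    unfold Ph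
    unfold slots at ht ⊢
    rw [mem_filter] at ht ⊢
    exact ⟨ht.1, hM ht.2⟩
  have h4' : (((slots ι β M).filter (sp a)).card : ℝ) ≤ (((Ph ι A β p a).filter (sp a)).card : ℝ) := by
    exact_mod_cast h4
  rw [h2] at h1
  have h5 : ((m : ℝ) + 1) * p ≤ α * (((m : ℝ) + 1) * (((p : ℝ) + 1) / 2) +
      (((Ph ι A β p a).filter (sp a)).card : ℝ)) :=
    h1.trans (mul_le_mul_of_nonneg_left (h3.trans (by linarith)) hα.le)
  have h6 : ((m : ℝ) + 1) * (p / α) ≤ ((m : ℝ) + 1) * (((p : ℝ) + 1) / 2) +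
      (((Ph ι A β p a).filter (sp a)).card : ℝ) := by
    rw [← mul_div_assoc, div_le_iff₀ hα]
    linarith
  have h7 : ((m : ℝ) + 1) * (γ + ((p : ℝ) + 1) / 2) ≤ ((m : ℝ) + 1) * (p / α) :=
    mul_le_mul_of_nonneg_left h (by positivity)
  linarith

open Classical in
private theorem good {p m n s : ℕ} (ι : Vx p m ↪ Fin n) (A : Alg n s) {α γ : ℝ} (hα : 0 < α) (hγ : 0 < γ)
    (h : γ + ((p : ℝ) + 1) / 2 ≤ p / α) {β : K p m → Bool} {r : ℕ}
    (hβ : ¬ ∃ σ, (∀ e ∈ A.held σ, ∃ t, E ι t (β t) = e) ∧ s + r ≤ (A.held σ).card) :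
    ((univ.filter fun a : Fin p → Fin (m + 1) => A.Succeeds α (strm ι β p) (f ι β a)).card : ℝ) ≤
      (p : ℝ) * (s + r) / (((m : ℝ) + 1) ^ 2 * γ) * Fintype.card (Fin p → Fin (m + 1)) := by
  have h1 : ((univ.filter fun a : Fin p → Fin (m + 1) =>
      A.Succeeds α (strm ι β p) (f ι β a)).card : ℝ) * (((m : ℝ) + 1) * γ) ≤
      ∑ a, (((Ph ι A β p a).filter (sp a)).card : ℝ) := by
    rw [← nsmul_eq_mul]
    calc (univ.filter fun a : Fin p → Fin (m + 1) =>
        A.Succeeds α (strm ι β p) (f ι β a)).card • (((m : ℝ) + 1) * γ)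
        ≤ ∑ a ∈ univ.filter fun a : Fin p → Fin (m + 1) =>
            A.Succeeds α (strm ι β p) (f ι β a), (((Ph ι A β p a).filter (sp a)).card : ℝ) := by
          apply card_nsmul_le_sum
          intro a ha
          rw [mem_filter] at ha
          exact succ_Z ι A hα h β a ha.2
      _ ≤ _ := by
          apply sum_le_sum_of_subset_of_nonneg (filter_subset _ _)
          intro a _ _
          positivity
  have h2 : ((m : ℝ) + 1) * ∑ a, (((Ph ι A β p a).filter (sp a)).card : ℝ) ≤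
      (p : ℝ) * (s + r) * Fintype.card (Fin p → Fin (m + 1)) := by
    exact_mod_cast sum_Z ι A hβ
  have hm : (0 : ℝ) < (m : ℝ) + 1 := by positivity
  rw [div_mul_eq_mul_div, le_div_iff₀ (by positivity)]
  calc ((univ.filter fun a : Fin p → Fin (m + 1) =>
      A.Succeeds α (strm ι β p) (f ι β a)).card : ℝ) * (((m : ℝ) + 1) ^ 2 * γ)
      = ((m : ℝ) + 1) * (((univ.filter fun a : Fin p → Fin (m + 1) =>
          A.Succeeds α (strm ι β p) (f ι β a)).card : ℝ) * (((m : ℝ) + 1) * γ)) := by ring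
    _ ≤ ((m : ℝ) + 1) * ∑ a, (((Ph ι A β p a).filter (sp a)).card : ℝ) :=
        mul_le_mul_of_nonneg_left h1 hm.le
    _ ≤ _ := h2

open Classical in
theorem det {p m n s : ℕ} (ι : Vx p m ↪ Fin n) (A : Alg n s) {α γ : ℝ} (hα : 0 < α) (hγ : 0 < γ)
    (h : γ + ((p : ℝ) + 1) / 2 ≤ p / α) (r : ℕ) :
    ((univ.filter fun x : (K p m → Bool) × (Fin p → Fin (m + 1)) =>
      A.Succeeds α (strm ι x.1 p) (f ι x.1 x.2)).card : ℝ) ≤
      ((p : ℝ) * (s + r) / (((m : ℝ) + 1) ^ 2 * γ) + 1 / 2 ^ r) *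
        Fintype.card ((K p m → Bool) × (Fin p → Fin (m + 1))) := by
  set Cc : ℝ := (p : ℝ) * (s + r) / (((m : ℝ) + 1) ^ 2 * γ) with hCc
  have hCc0 : 0 ≤ Cc := by rw [hCc]; positivity
  set bad : Finset (K p m → Bool) := univ.filter fun β : K p m → Bool =>
      ∃ σ, (∀ e ∈ A.held σ, ∃ t, E ι t (β t) = e) ∧ s + r ≤ (A.held σ).card with hbad
  have hb : (bad.card : ℝ) * 2 ^ r ≤ Fintype.card (K p m → Bool) := by
    exact_mod_cast bits ι A.held r
  have hb' : (bad.card : ℝ) ≤ 1 / 2 ^ r * Fintype.card (K p m → Bool) := by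
    rw [one_div, ← div_eq_inv_mul, le_div_iff₀ (by positivity)]
    exact hb
  have hsum : ((univ.filter fun x : (K p m → Bool) × (Fin p → Fin (m + 1)) =>
      A.Succeeds α (strm ι x.1 p) (f ι x.1 x.2)).card : ℝ) =
      ∑ β : K p m → Bool, ((univ.filter fun a : Fin p → Fin (m + 1) =>
        A.Succeeds α (strm ι β p) (f ι β a)).card : ℝ) := by
    rw [← Nat.cast_sum]
    congr 1
    rw [card_filter, Fintype.sum_prod_type]
    apply sum_congr rfl
    intro β _
    rw [card_filter]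
  rw [hsum]
  have hterm : ∀ β : K p m → Bool, ((univ.filter fun a : Fin p → Fin (m + 1) =>
        A.Succeeds α (strm ι β p) (f ι β a)).card : ℝ) ≤
      Cc * Fintype.card (Fin p → Fin (m + 1)) +
        (if β ∈ bad then (Fintype.card (Fin p → Fin (m + 1)) : ℝ) else 0) := by
    intro β
    by_cases hβ : β ∈ bad
    · rw [if_pos hβ]
      have h1 : (univ.filter fun a : Fin p → Fin (m + 1) =>
          A.Succeeds α (strm ι β p) (f ι β a)).card ≤ Fintype.card (Fin p → Fin (m + 1)) := by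
        rw [← card_univ]
        exact card_filter_le _ _
      have h1' : ((univ.filter fun a : Fin p → Fin (m + 1) =>
          A.Succeeds α (strm ι β p) (f ι β a)).card : ℝ) ≤ Fintype.card (Fin p → Fin (m + 1)) := by
        exact_mod_cast h1
      have h2 : 0 ≤ Cc * Fintype.card (Fin p → Fin (m + 1)) := by positivity
      linarith
    · rw [if_neg hβ, add_zero]
      apply good ι A hα hγ h
      intro hc
      apply hβ
      rw [hbad, mem_filter]
      exact ⟨mem_univ _, hc⟩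
  calc ∑ β : K p m → Bool, ((univ.filter fun a : Fin p → Fin (m + 1) =>
        A.Succeeds α (strm ι β p) (f ι β a)).card : ℝ)
      ≤ ∑ β : K p m → Bool, (Cc * Fintype.card (Fin p → Fin (m + 1)) +
        (if β ∈ bad then (Fintype.card (Fin p → Fin (m + 1)) : ℝ) else 0)) :=
        sum_le_sum fun β _ => hterm β
    _ = Fintype.card (K p m → Bool) * (Cc * Fintype.card (Fin p → Fin (m + 1))) +
        bad.card * Fintype.card (Fin p → Fin (m + 1)) := by
        rw [sum_add_distrib, sum_const, card_univ, nsmul_eq_mul, ← sum_filter, sum_const,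
          nsmul_eq_mul, filter_mem_eq_inter, univ_inter]
    _ ≤ Fintype.card (K p m → Bool) * (Cc * Fintype.card (Fin p → Fin (m + 1))) +
        (1 / 2 ^ r * Fintype.card (K p m → Bool)) * Fintype.card (Fin p → Fin (m + 1)) := by
        have := mul_le_mul_of_nonneg_right hb'
          (Nat.cast_nonneg (Fintype.card (Fin p → Fin (m + 1))) : (0 : ℝ) ≤ _)
        linarith
    _ = (Cc + 1 / 2 ^ r) * Fintype.card ((K p m → Bool) × (Fin p → Fin (m + 1))) := by
        rw [Fintype.card_prod, Nat.cast_mul]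
        ring

end Pool.Agent.Work.MP_eef58c_lc
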