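import Mathlib

set_option autoImplicit false

/-!
# MP_eef58c_lc: one-pass streaming algorithms for maximum submodular matching
-/

namespace Pool.Agent.Work.MP_eef58c_lc

/-- A set of edges in which different edges have no common vertex. -/
def IsMatching {n : ℕ} (M : Finset (Sym2 (Fin n))) : Prop :=
  ∀ e ∈ M, ∀ e' ∈ M, ∀ v, v ∈ e → v ∈ e' → e = e'

/-- Submodular set functions. -/
def Submod {n : ℕ} (f : Finset (Sym2 (Fin n)) → ℝ) : Prop :=
  ∀ S T, f (S ∪ T) + f (S ∩ T) ≤ f S + f T

/-- A deterministic one-pass streaming algorithm with `s` bits of memory for graphs on `Fin n`.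
`state l f` is the content of the memory when the edges which have arrived are those of the list
`l` (in this order): an arbitrary function of `l` and of the values of `f` at the sets of edges of
`l`. `held σ` is the set of the edges which the algorithm holds in memory if the content of the
memory is `σ`; an edge is held only if it was held before or if it has just arrived. -/
structure Alg (n s : ℕ) where
  state : List (Sym2 (Fin n)) → (Finset (Sym2 (Fin n)) → ℝ) → Fin (2 ^ s)
  held : Fin (2 ^ s) → Finset (Sym2 (Fin n))
  oracle : ∀ l f g, (∀ S ⊆ l.toFinset, f S = g S) → state l f = state l g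
  start : ∀ f, held (state [] f) = ∅
  step : ∀ l e f, held (state (l ++ [e]) f) ⊆ insert e (held (state l f))

/-- At the end of the stream `l` the algorithm holds a matching whose value is at least `1 / α`
times the value of every matching of the graph. -/
def Alg.Succeeds {n s : ℕ} (A : Alg n s) (α : ℝ) (l : List (Sym2 (Fin n)))
    (f : Finset (Sym2 (Fin n)) → ℝ) : Prop :=
  ∃ M ⊆ A.held (A.state l f), IsMatching M ∧ ∀ M' ⊆ l.toFinset, IsMatching M' → f M' ≤ α * f M

end Pool.Agent.Work.MP_eef58c_lc
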